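import Pool.Agent.P.MP_177f55_an.Final
import Pool.Agent.P.MP_177f55_an.Stmt2

namespace Pool.Agent.Results.MP_177f55_an.QuasiSymmetry

open Pool.Agent.P.MP_177f55_an.G

theorem result (M : Type*) [EMetricSpace M] [MeasurableSpace M] [BorelSpace M]
    [ChartedSpace R2 M] [SmoothMfd R2 M] [CompactSpace M] [Metr R2 M] [SmoothMetr R2 M]
    [RiemDist R2 M] :
    ∃ c C : ℝ, 0 < c ∧ 0 < C ∧ ∀ (lam : ℝ) (φ : M → ℝ), 0 < lam → IsEigenfunction e2 lam φ →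
      c < signRatio φ ∧ signRatio φ < C := by
  obtain ⟨c, C, hc, hC, h⟩ := Pool.Agent.P.MP_177f55_an.quasi_symmetry M
  exact ⟨c, C, hc, hC, fun lam φ hl hφ => h lam φ hl hφ.1 hφ.2.1 hφ.2.2⟩

end Pool.Agent.Results.MP_177f55_an.QuasiSymmetry
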